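import Pool.Agent.Run7.h435.UD4

/-!
# The normalized zeta zeros become uniformly distributed modulo `s` as `s` tends to infinity

Unconditional.  Let `g_n = γ_n / 2π · log (γ_n / 2πe) + 11/8` be the normalized zeros.  The question of the
problem is whether `g_n` is uniformly distributed modulo `1`; equivalently, `n - g_n`, or `S(γ_n)`.  We prove
that the discrepancy of the first `N` terms of the sequence `g_n` modulo `s`, and of `n - g_n` modulo `s`, is
at most `ε` for all large `N` as soon as `|s| ≥ s_0(ε)`.  The same is true for `g_n / s + α n + β` modulo `1`,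
uniformly in `α` and `β`.

Proof.  By van der Corput's inequality the exponential sum with the phases `α n + θ g_n` is small if the
exponential sums with the phases `θ (g_{n+k} - g_n)` are small for most `k` up to some `H ^ 2`.  The sum of
the `k` gaps `g_{n+k} - g_n` is approximately Gaussian with variance `log k / π²` for large `k` (the result
MP_7eacff_nt.JointGaussianLaw), so for given small `θ` the sum is small for `H ≤ k ≤ H ^ 2` if
`θ √(log H)` is large.  Here `H` depends on `θ`, but not on `N`: this is the reason why `s` may be fixed.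
-/

set_option autoImplicit false

open Filter

namespace Pool.Agent.Results.MP_0af146_nt.UniformModuloLargeS

/-- multiplicity of `s` as a zero of the Riemann zeta function (order of vanishing at `s`) -/
noncomputable def zmult (s : ℂ) : ℕ := analyticOrderNatAt riemannZeta s

/-- the number of nontrivial zeros of `ζ` with ordinate in `(0, t]`, with multiplicity -/
noncomputable def NZ (t : ℝ) : ℕ :=
  ∑ᶠ s ∈ {s : ℂ | riemannZeta s = 0 ∧ 0 < s.re ∧ s.re < 1 ∧ 0 < s.im ∧ s.im ≤ t}, zmult s

/-- for `n ≥ 1`: the `n`-th positive ordinate `γ n` of a nontrivial zero of `ζ`, the ordinates being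
listed in nondecreasing order and repeated according to multiplicity -/
noncomputable def γ (n : ℕ) : ℝ := sInf {t : ℝ | n ≤ NZ t}

/-- the normalized zeros `g_n = γ_n / 2π · log (γ_n / 2πe) + 11/8` -/
noncomputable def g (n : ℕ) : ℝ :=
  γ n / (2 * Real.pi) * Real.log (γ n / (2 * Real.pi * Real.exp 1)) + 11 / 8

/-- the proportion of the `n ≤ N` for which the fractional part of `x n` belongs to `[a, b)` -/
noncomputable def proportion (x : ℕ → ℝ) (N : ℕ) (a b : ℝ) : ℝ :=
  (1 / N : ℝ) * ({n : ℕ | 1 ≤ n ∧ n ≤ N ∧ a ≤ Int.fract (x n) ∧ Int.fract (x n) < b}.ncard : ℝ)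

/-- Unconditionally: for every `ε > 0` there is `s_0 > 0` such that for every real `s` with `|s| ≥ s_0` there
is `N_0` such that for all `N ≥ N_0`, all real `α`, `β` and all `0 ≤ a ≤ b ≤ 1` the proportion of the `n ≤ N`
for which the fractional part of `α n + β + g_n / s` belongs to `[a, b)` differs from `b - a` by at most `ε`.
(With `α = β = 0` these are the normalized zeros modulo `s`; with `α = 1 / r`, `s = - r` they are the
numbers `n - g_n` modulo `r`.) -/
theorem result (ε : ℝ) (hε : 0 < ε) : ∃ s₀ : ℝ, 0 < s₀ ∧ ∀ s : ℝ, s₀ ≤ |s| → ∃ N₀ : ℕ, ∀ N : ℕ, N₀ ≤ N →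
    ∀ α β a b : ℝ, 0 ≤ a → a ≤ b → b ≤ 1 →
      |proportion (fun n => α * n + β + g n / s) N a b - (b - a)| ≤ ε :=
  Run7.h435.UD.equi ε hε

end Pool.Agent.Results.MP_0af146_nt.UniformModuloLargeS
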